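import Pool.Agent.H13.LS.Out
import Pool.Agent.H32.LD.Exi2
import Pool.Agent.H97.HY.WinS
import Pool.Agent.H97.HY.Vdm
import Pool.Agent.H97.HY.Bro
import Pool.Agent.H97.HY.Smo

/-!
# Linear systems of hyperbolic hypersurfaces: assembly
-/

open Metric Set Filter Topology Finset

set_option autoImplicit false

namespace Pool.Agent.H13.LS

open Pool.Agent.H97.HY Pool.Agent.H32.LD

/-- the systems exist -/
theorem exists_system {N R k d : ℕ} (hN : 2 ≤ N) (hR : 1 ≤ R) (hk : 7 * (R - 1) ≤ N * k)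
    (hd : 3 * N * (8 + k) ≤ d) :
    ∃ F : Fin R → MvPolynomial (Fin (N + 1)) ℂ, (∀ r, (F r).IsHomogeneous d) ∧
      ∀ lam : Fin R → ℂ, ‖lam‖ = 1 → ¬ Hits (fam F lam) := by
  obtain ⟨π, hπ⟩ := exists_orders2 N R k hN hk hR
  obtain ⟨H, hH⟩ := exists_genPos N (3 * N)
  have hpos : 0 < 3 * N := by omega
  let T : Tw N (3 * N) (7 + k) d :=
    { H := H
      ord := π
      a := fun i => (8 + k) + (if i = ⟨0, hpos⟩ then d - 3 * N * (8 + k) else 0)
      gen := hH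
      a_ge := fun i => by omega
      a_sum := by
        rw [Finset.sum_add_distrib]
        simp only [Finset.sum_const, Finset.card_univ, Fintype.card_fin, smul_eq_mul,
          Finset.sum_ite_eq', Finset.mem_univ, if_true]
        omega }
  refine startL T (outerL T ?_)
  intro s J X hX
  exact winningS hN T hπ s J X (by omega)

/-- openness -/
theorem open_system {N R d : ℕ} {F : Fin R → MvPolynomial (Fin (N + 1)) ℂ}
    (hF : ∀ r, (F r).IsHomogeneous d) (h : ∀ lam : Fin R → ℂ, ‖lam‖ = 1 → ¬ Hits (fam F lam)) :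
    ∃ ε > 0, ∀ F' : Fin R → MvPolynomial (Fin (N + 1)) ℂ, (∀ r, (F' r).IsHomogeneous d) →
      (∀ r m, ‖(F' r).coeff m - (F r).coeff m‖ < ε) →
      ∀ lam : Fin R → ℂ, ‖lam‖ = 1 → ¬ Hits (fam F' lam) := by
  by_contra hcon
  have hall : ∀ k : ℕ, ∃ F' : Fin R → MvPolynomial (Fin (N + 1)) ℂ,
      (∀ r, (F' r).IsHomogeneous d) ∧
      (∀ r m, ‖(F' r).coeff m - (F r).coeff m‖ < 1 / ((k : ℝ) + 1)) ∧
      ∃ lam : Fin R → ℂ, ‖lam‖ = 1 ∧ Hits (fam F' lam) := by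
    intro k
    by_contra hk
    apply hcon
    refine ⟨1 / ((k : ℝ) + 1), Nat.one_div_pos_of_nat, fun F' hF' hc lam hl hh => ?_⟩
    exact hk ⟨F', hF', hc, lam, hl, hh⟩
  choose Fk hFk hc lam hlam hhit using hall
  choose f hf hf0 using hhit
  obtain ⟨l, hl1, hlt⟩ := sphere_limit (U := hyperfilter ℕ) (lam := lam)
    (Eventually.of_forall hlam)
  obtain ⟨g, hg⟩ := exists_limit_bcurve (hyperfilter ℕ) f (Eventually.of_forall hf)
  refine h l hl1 ⟨g, hg.bcurve, ?_⟩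
  refine IsLim.eval_seq_eq_zero hg (fun z0 => Eventually.of_forall fun k => (hf k).chart z0)
    (fam_hom hF l) (fun k => fam_hom (hFk k) (lam k)) (fun m => ?_)
    (fun z => Eventually.of_forall fun k => hf0 k z)
  have h1 : ∀ (S : Fin R → MvPolynomial (Fin (N + 1)) ℂ) (v : Fin R → ℂ),
      (fam S v).coeff m = ∑ r, v r * (S r).coeff m := by
    intro S v
    simp [fam, MvPolynomial.coeff_sum, MvPolynomial.coeff_C_mul]
  simp only [h1]
  refine tendsto_finsetSum _ fun r _ => (tendsto_pi_nhds.1 hlt r).mul ?_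
  rw [tendsto_iff_norm_sub_tendsto_zero]
  have h0 : Tendsto (fun k : ℕ => 1 / ((k : ℝ) + 1))
      ((hyperfilter ℕ : Ultrafilter ℕ) : Filter ℕ) (𝓝 0) :=
    (tendsto_one_div_add_atTop_nhds_zero_nat (𝕜 := ℝ)).mono_left Nat.hyperfilter_le_atTop
  exact squeeze_zero (fun k => norm_nonneg _) (fun k => (hc k r m).le) h0

/-- all members, all entire curves -/
theorem brody_system {N R d : ℕ} {F : Fin R → MvPolynomial (Fin (N + 1)) ℂ}
    (hF : ∀ r, (F r).IsHomogeneous d) (h : ∀ lam : Fin R → ℂ, ‖lam‖ = 1 → ¬ Hits (fam F lam))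
    (lam : Fin R → ℂ) (hlam : lam ≠ 0) (g : ℂ → Fin (N + 1) → ℂ) (hg : Differentiable ℂ g)
    (hne : ∀ z, g z ≠ 0) (h0 : ∀ z, MvPolynomial.eval (g z) (fam F lam) = 0) :
    ∀ z, ∃ c : ℂ, g z = c • g 0 := by
  have hn : 0 < ‖lam‖ := norm_pos_iff.2 hlam
  have hnC : ((‖lam‖ : ℝ) : ℂ) ≠ 0 := by exact_mod_cast hn.ne'
  set u : Fin R → ℂ := ((‖lam‖ : ℝ) : ℂ)⁻¹ • lam with hu
  have hu1 : ‖u‖ = 1 := by
    rw [hu, norm_smul, norm_inv, Complex.norm_real, norm_norm, inv_mul_cancel₀ hn.ne']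
  have e : lam = ((‖lam‖ : ℝ) : ℂ) • u := by
    rw [hu, smul_smul, mul_inv_cancel₀ hnC, one_smul]
  refine brody (fam_hom hF u) (h u hu1) g hg hne (fun z => ?_)
  have h1 := h0 z
  rw [e, fam_smul, map_mul, MvPolynomial.eval_C] at h1
  exact (mul_eq_zero.1 h1).resolve_left hnC

/-- an open set of linear systems, spanned by smooth forms, all of whose nonzero members are
hyperbolic -/
theorem mainL {N R k d : ℕ} (hN : 2 ≤ N) (hR : 1 ≤ R) (hk : 7 * (R - 1) ≤ N * k)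
    (hd : 3 * N * (8 + k) ≤ d) :
    ∃ F₀ : Fin R → MvPolynomial (Fin (N + 1)) ℂ, (∀ r, (F₀ r).IsHomogeneous d) ∧
      (∀ r, ∀ x : Fin (N + 1) → ℂ, x ≠ 0 → MvPolynomial.eval x (F₀ r) = 0 →
        ∃ i, MvPolynomial.eval x (MvPolynomial.pderiv i (F₀ r)) ≠ 0) ∧
      ∃ ε : ℝ, 0 < ε ∧ ∀ F : Fin R → MvPolynomial (Fin (N + 1)) ℂ,
        (∀ r, (F r).IsHomogeneous d) → (∀ r m, ‖(F r).coeff m - (F₀ r).coeff m‖ < ε) →
        ∀ lam : Fin R → ℂ, lam ≠ 0 →
          ∀ g : ℂ → Fin (N + 1) → ℂ, Differentiable ℂ g → (∀ z, g z ≠ 0) →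
            (∀ z, MvPolynomial.eval (g z) (∑ r, MvPolynomial.C (lam r) * F r) = 0) →
            ∀ z, ∃ c : ℂ, g z = c • g 0 := by
  obtain ⟨F, hF, hh⟩ := exists_system hN hR hk hd
  obtain ⟨ε, hε, hopen⟩ := open_system hF hh
  have hd2 : 2 ≤ d := by
    have : 3 * N * 8 ≤ 3 * N * (8 + k) := Nat.mul_le_mul_left _ (by omega)
    omega
  choose F₀ hF₀ hclose hsm using fun r => exists_smooth_near hd2 (hF r) (half_pos hε)
  refine ⟨F₀, hF₀, hsm, ε / 2, half_pos hε, ?_⟩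
  intro G hG hGc lam hlam g hg hne h0
  refine brody_system hG (hopen G hG ?_) lam hlam g hg hne h0
  intro r m
  have h1 := hGc r m
  have h2 := hclose r m
  calc ‖(G r).coeff m - (F r).coeff m‖ =
        ‖((G r).coeff m - (F₀ r).coeff m) + ((F₀ r).coeff m - (F r).coeff m)‖ := by
        ring_nf
    _ ≤ ‖(G r).coeff m - (F₀ r).coeff m‖ + ‖(F₀ r).coeff m - (F r).coeff m‖ := norm_add_le _ _
    _ < ε := by linarith

end Pool.Agent.H13.LS

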