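import Pool.Agent.H32.LD.Tw
import Pool.Agent.H97.HY.ConL
import Pool.Agent.H97.HY.LimV

/-!
# Linear systems of hyperbolic hypersurfaces: families, constraints with coefficients
-/

open Metric Set Filter Topology Finset

set_option autoImplicit false

namespace Pool.Agent.H13.LS

open Pool.Agent.H97.HY Pool.Agent.H32.LD

/-- the member `lam` of the linear system spanned by the forms `S r` -/
noncomputable def fam {N : ℕ} {ι : Type*} [Fintype ι] (S : ι → MvPolynomial (Fin (N + 1)) ℂ)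
    (lam : ι → ℂ) : MvPolynomial (Fin (N + 1)) ℂ := ∑ r, MvPolynomial.C (lam r) * S r

/-- the functional with parameter `x` -/
noncomputable def ev {R : ℕ} (x : ℂ) (lam : Fin R → ℂ) : ℂ := ∑ r, lam r * x ^ (r : ℕ)

/-- number of functionals with parameter in `A` which vanish at `lam` -/
noncomputable def lost {R : ℕ} (A : Finset ℂ) (lam : Fin R → ℂ) : ℕ := by
  classical
  exact (A.filter (fun x => ev x lam = 0)).card

lemma fam_hom {N d : ℕ} {ι : Type*} [Fintype ι] {S : ι → MvPolynomial (Fin (N + 1)) ℂ}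
    (hS : ∀ r, (S r).IsHomogeneous d) (lam : ι → ℂ) : (fam S lam).IsHomogeneous d := by
  unfold fam
  apply MvPolynomial.IsHomogeneous.sum
  intro r _
  have := (MvPolynomial.isHomogeneous_C (Fin (N + 1)) (lam r)).mul (hS r)
  rwa [zero_add] at this

lemma eval_fam {N : ℕ} {ι : Type*} [Fintype ι] (S : ι → MvPolynomial (Fin (N + 1)) ℂ)
    (lam : ι → ℂ) (x : Fin (N + 1) → ℂ) :
    MvPolynomial.eval x (fam S lam) = ∑ r, lam r * MvPolynomial.eval x (S r) := by
  simp [fam, map_sum]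

lemma fam_smul {N : ℕ} {ι : Type*} [Fintype ι] (S : ι → MvPolynomial (Fin (N + 1)) ℂ)
    (c : ℂ) (lam : ι → ℂ) : fam S (c • lam) = MvPolynomial.C c * fam S lam := by
  simp only [fam, Pi.smul_apply, smul_eq_mul, Finset.mul_sum, map_mul, mul_assoc]

lemma ev_smul {R : ℕ} (x c : ℂ) (lam : Fin R → ℂ) : ev x (c • lam) = c * ev x lam := by
  simp only [ev, Pi.smul_apply, smul_eq_mul, Finset.mul_sum, mul_assoc]

/-- the level with parameter `x` -/
lemma fam_level {N R : ℕ} (P : MvPolynomial (Fin (N + 1)) ℂ) (x δ : ℂ)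
    (S : Fin R → MvPolynomial (Fin (N + 1)) ℂ) (lam : Fin R → ℂ) :
    fam (fun r : Fin R => MvPolynomial.C (x ^ (r : ℕ)) * P + MvPolynomial.C δ * S r) lam =
      MvPolynomial.C (ev x lam) * P + MvPolynomial.C δ * fam S lam := by
  simp only [fam, ev, map_sum, map_mul, Finset.sum_mul, Finset.mul_sum, ← Finset.sum_add_distrib]
  refine Finset.sum_congr rfl fun r _ => ?_
  ring

lemma tendsto_ev {R : ℕ} {U : Filter ℕ} {lam : ℕ → Fin R → ℂ} {l : Fin R → ℂ}
    (h : Tendsto lam U (𝓝 l)) (x : ℂ) : Tendsto (fun k => ev x (lam k)) U (𝓝 (ev x l)) := by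
  unfold ev
  refine tendsto_finsetSum _ fun r _ => ?_
  exact ((tendsto_pi_nhds.1 h r).mul_const _)

/-- a nonzero `lam` kills at most `R - 1` functionals -/
lemma lost_lt {R : ℕ} (A : Finset ℂ) {lam : Fin R → ℂ} (h : lam ≠ 0) : lost A lam + 1 ≤ R := by
  classical
  have hR : 0 < R := by
    rcases Nat.eq_zero_or_pos R with h0 | h0
    · subst h0
      exact absurd (Subsingleton.elim lam 0) h
    · exact h0
  set p : Polynomial ℂ := ∑ r : Fin R, Polynomial.C (lam r) * Polynomial.X ^ (r : ℕ) with hp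
  have hev : ∀ x, p.eval x = ev x lam := by
    intro x
    simp [hp, ev, Polynomial.eval_finsetSum]
  have hp0 : p ≠ 0 := by
    intro h0
    apply h
    funext r
    have h1 : p.coeff (r : ℕ) = lam r := by
      rw [hp, Polynomial.finsetSum_coeff, Finset.sum_eq_single r]
      · simp
      · intro b _ hb
        rw [Polynomial.coeff_C_mul, Polynomial.coeff_X_pow, if_neg, mul_zero]
        intro h2
        exact hb (Fin.ext h2.symm)
      · simp
    rw [← h1, h0]
    simp
  have hdeg : p.natDegree < R := by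
    rw [hp]
    refine lt_of_le_of_lt (Polynomial.natDegree_sum_le_of_forall_le (n := R - 1) _ _
      (fun r _ => (Polynomial.natDegree_C_mul_X_pow_le _ _).trans (by omega))) (by omega)
  have hsub : A.filter (fun x => ev x lam = 0) ⊆ p.roots.toFinset := by
    intro x hx
    rw [Finset.mem_filter] at hx
    rw [Multiset.mem_toFinset, Polynomial.mem_roots hp0, Polynomial.IsRoot.def, hev]
    exact hx.2
  have h1 := Finset.card_le_card hsub
  have h2 := p.roots.toFinset_card_le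
  have h3 := Polynomial.card_roots' p
  unfold lost
  omega

lemma lost_insert {R : ℕ} (A : Finset ℂ) {x : ℂ} (hx : x ∉ A) (lam : Fin R → ℂ)
    (h : ev x lam = 0) : lost (insert x A) lam = lost A lam + 1 := by
  classical
  unfold lost
  rw [Finset.filter_insert, if_pos h, Finset.card_insert_of_notMem]
  intro h1
  exact hx (Finset.mem_filter.1 h1).1

lemma lost_mono {R : ℕ} {A B : Finset ℂ} (h : A ⊆ B) (lam : Fin R → ℂ) : lost A lam ≤ lost B lam := by
  classical
  unfold lost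
  exact Finset.card_le_card (Finset.filter_subset_filter _ h)

/-- upper semicontinuity -/
lemma lost_limit {R : ℕ} {U : Ultrafilter ℕ} (A : Finset ℂ) {lam : ℕ → Fin R → ℂ}
    {l : Fin R → ℂ} (h : Tendsto lam (U : Filter ℕ) (𝓝 l)) :
    ∀ᶠ k in (U : Filter ℕ), lost A (lam k) ≤ lost A l := by
  classical
  have h1 : ∀ x ∈ A, ∀ᶠ k in (U : Filter ℕ), ev x (lam k) = 0 → ev x l = 0 := by
    intro x _
    by_cases hx : ev x l = 0
    · exact Eventually.of_forall fun _ _ => hx
    · have := (tendsto_ev h x).eventually_ne hx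
      filter_upwards [this] with k hk hk0
      exact absurd hk0 hk
  have h2 := (Finset.eventually_all A).2 h1
  filter_upwards [h2] with k hk
  unfold lost
  apply Finset.card_le_card
  intro x hx
  rw [Finset.mem_filter] at hx ⊢
  exact ⟨hx.1, hk x hx.1 hx.2⟩

section con

variable {N q : ℕ} {H : Fin q → Fin (N + 1) → ℂ} {f : ℂ → Fin (N + 1) → ℂ}

private theorem con_diff {z0 : ℂ} {i : Fin (N + 1)} (h : Chart f z0 i) (A : Finset (Fin q))
    (w : Fin q → ℕ) :
    DifferentiableOn ℂ (fun z => ∏ j ∈ A, lin (H j) (aff f i z) ^ w j) (ball z0 rho) := by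
  apply DifferentiableOn.fun_finsetProd
  intro j _
  exact (lin_aff_diff h (H j)).pow (w j)

theorem con_scale {A : Finset (Fin q)} {w : Fin q → ℕ} {s : MvPolynomial (Fin (N + 1)) ℂ} {c : ℂ}
    (hc : c ≠ 0) (h : Con H f A w (MvPolynomial.C c * s)) : Con H f A w s := by
  intro z0
  obtain ⟨i, hch, Q, hQ, hs⟩ := h z0
  refine ⟨i, hch, fun z => c⁻¹ * Q z, hQ.const_mul c⁻¹, ?_⟩
  intro z hz
  have h0 := hs z hz
  rw [map_mul, MvPolynomial.eval_C] at h0
  rw [mul_assoc, ← h0]
  field_simp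

theorem con_step_c {A : Finset (Fin q)} {w b : Fin q → ℕ} {s' : MvPolynomial (Fin (N + 1)) ℂ}
    {p δ : ℂ} (hδ : δ ≠ 0) (hb : ∀ i, i ∉ A → b i = 0)
    (h : Con H f A w (MvPolynomial.C p * prodP H b + MvPolynomial.C δ * s')) :
    Con H f A (fun i => min (w i) (b i)) s' := by
  intro z0
  obtain ⟨i, hc, Q, hQ, hs⟩ := h z0
  refine ⟨i, hc, fun z => δ⁻¹ * (Q z * (∏ j ∈ A, lin (H j) (aff f i z) ^ (w j - min (w j) (b j)))
    - p * ∏ j ∈ A, lin (H j) (aff f i z) ^ (b j - min (w j) (b j))),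
    ((hQ.mul (con_diff hc A (fun j => w j - min (w j) (b j)))).sub
      ((con_diff hc A (fun j => b j - min (w j) (b j))).const_mul p)).const_mul δ⁻¹, ?_⟩
  intro z hz
  have h0 := hs z hz
  rw [map_add, map_mul, map_mul, MvPolynomial.eval_C, MvPolynomial.eval_C, eval_prodP] at h0
  have h1 : ∏ j, lin (H j) (aff f i z) ^ b j = ∏ j ∈ A, lin (H j) (aff f i z) ^ b j := by
    symm
    apply Finset.prod_subset (Finset.subset_univ A)
    intro j _ hj
    rw [hb j hj, pow_zero]
  have h2 : ∀ v : Fin q → ℕ, (∀ j ∈ A, min (w j) (b j) ≤ v j) →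
      ∏ j ∈ A, lin (H j) (aff f i z) ^ v j =
      (∏ j ∈ A, lin (H j) (aff f i z) ^ (v j - min (w j) (b j))) *
        ∏ j ∈ A, lin (H j) (aff f i z) ^ min (w j) (b j) := by
    intro v hv
    rw [← Finset.prod_mul_distrib]
    apply Finset.prod_congr rfl
    intro j hj
    rw [← pow_add, Nat.sub_add_cancel (hv j hj)]
  have h3 : MvPolynomial.eval (aff f i z) s' = δ⁻¹ *
      (Q z * ∏ j ∈ A, lin (H j) (aff f i z) ^ w j -
        p * ∏ j ∈ A, lin (H j) (aff f i z) ^ b j) := by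
    rw [← h0, h1]
    field_simp
    ring
  rw [h3, h2 w (fun j _ => min_le_left _ _), h2 b (fun j _ => min_le_right _ _)]
  ring

theorem con_of_van_c {A : Finset (Fin q)} {w b : Fin q → ℕ} {s' : MvPolynomial (Fin (N + 1)) ℂ}
    {p δ : ℂ} (hδ : δ ≠ 0) {i : Fin q} (hi : b i ≠ 0) (hv : ∀ z, lin (H i) (f z) = 0)
    (h : Con H f A w (MvPolynomial.C p * prodP H b + MvPolynomial.C δ * s')) : Con H f A w s' := by
  intro z0
  obtain ⟨i0, hc, Q, hQ, hs⟩ := h z0
  refine ⟨i0, hc, fun z => δ⁻¹ * Q z, hQ.const_mul δ⁻¹, ?_⟩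
  intro z hz
  have h0 := hs z hz
  rw [map_add, map_mul, map_mul, MvPolynomial.eval_C, MvPolynomial.eval_C, eval_prodP] at h0
  have h1 : ∏ j, lin (H j) (aff f i0 z) ^ b j = 0 := by
    apply Finset.prod_eq_zero (Finset.mem_univ i)
    rw [lin_aff, hv z, zero_div, zero_pow hi]
  rw [h1, mul_zero, zero_add] at h0
  rw [mul_assoc, ← h0]
  field_simp

theorem con_start_c {d : ℕ} (hf : ∀ z0, ∃ i, Chart f z0 i) {a : Fin q → ℕ} (ha : ∑ i, a i = d)
    {s : MvPolynomial (Fin (N + 1)) ℂ} (hs : s.IsHomogeneous d) {p δ : ℂ} (hδ : δ ≠ 0)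
    (h : ∀ z, MvPolynomial.eval (f z) (MvPolynomial.C p * prodP H a + MvPolynomial.C δ * s) = 0)
    (A : Finset (Fin q)) : Con H f A a s := by
  intro z0
  obtain ⟨i, hc⟩ := hf z0
  refine ⟨i, hc, fun z => -δ⁻¹ * (p * ∏ j ∈ Finset.univ \ A, lin (H j) (aff f i z) ^ a j),
    ((con_diff hc (Finset.univ \ A) a).const_mul p).const_mul (-δ⁻¹), ?_⟩
  intro z hz
  have hhom : (MvPolynomial.C p * prodP H a + MvPolynomial.C δ * s).IsHomogeneous d := by
    apply MvPolynomial.IsHomogeneous.add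
    · have := (MvPolynomial.isHomogeneous_C (Fin (N + 1)) p).mul (prodP_hom H a)
      rw [ha] at this
      simpa using this
    · have := (MvPolynomial.isHomogeneous_C (Fin (N + 1)) δ).mul hs
      simpa using this
  have h0 := (eval_aff_iff hhom hc hz).2 (h z)
  rw [map_add, map_mul, map_mul, MvPolynomial.eval_C, MvPolynomial.eval_C, eval_prodP] at h0
  have h1 : ∏ j, lin (H j) (aff f i z) ^ a j =
      (∏ j ∈ Finset.univ \ A, lin (H j) (aff f i z) ^ a j) *
        ∏ j ∈ A, lin (H j) (aff f i z) ^ a j := (Finset.prod_sdiff (Finset.subset_univ A)).symm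
  have h2 : δ * MvPolynomial.eval (aff f i z) s = -(p * ∏ j, lin (H j) (aff f i z) ^ a j) := by
    linear_combination h0
  calc MvPolynomial.eval (aff f i z) s = δ⁻¹ * (δ * MvPolynomial.eval (aff f i z) s) := by
        field_simp
    _ = _ := by rw [h2, h1]; ring

end con

/-- constraints of converging members of a family pass to the limit -/
theorem con_limit_fam {N q : ℕ} {ι : Type*} [Fintype ι] {U : Ultrafilter ℕ}
    {f : ℕ → ℂ → Fin (N + 1) → ℂ}
    {g : ℂ → Fin (N + 1) → ℂ} (hlim : IsLim U f g) (H : Fin q → Fin (N + 1) → ℂ)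
    {A B : Finset (Fin q)} (w : Fin q → ℕ) (S : ι → MvPolynomial (Fin (N + 1)) ℂ)
    {lam : ℕ → ι → ℂ} {l : ι → ℂ} (hlam : Tendsto lam (U : Filter ℕ) (𝓝 l))
    (hcon : ∀ᶠ k in (U : Filter ℕ), Con H (f k) A w (fam S (lam k)))
    (hB : B ⊆ A) (hne : ∀ j ∈ B, ∃ z, lin (H j) (g z) ≠ 0) : Con H g B w (fam S l) := by
  intro z0
  obtain ⟨i, hi⟩ := pick (U := U) (hcon.mono fun k hk => hk z0)
  have hchk : ∀ᶠ k in (U : Filter ℕ), Chart (f k) z0 i := hi.mono fun k hk => hk.1
  have hch : Chart g z0 i := hlim.chart z0 i hchk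
  have hBC : ∀ j, BC U (fun k z => f k z j / f k z i) (fun z => g z j / g z i) z0 rho :=
    hlim.lim z0 i hchk
  refine ⟨i, hch, ?_⟩
  have hA : BC U (fun k z => MvPolynomial.eval (aff (f k) i z) (fam S (lam k)))
      (fun z => MvPolynomial.eval (aff g i z) (fam S l)) z0 rho := by
    have h1 := BC.sum (U := U) (z0 := z0) (r := rho) (Finset.univ : Finset ι)
      (F := fun r k z => lam k r * MvPolynomial.eval (aff (f k) i z) (S r))
      (G := fun r z => l r * MvPolynomial.eval (aff g i z) (S r))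
      (fun r _ => (BC.const_seq (tendsto_pi_nhds.1 hlam r) z0 rho).mul (BC.eval hBC (S r)))
    refine h1.congr (Eventually.of_forall fun k z _ => ?_) (fun z _ => ?_)
    · exact (eval_fam S (lam k) _).symm
    · exact (eval_fam S l _).symm
  have hBB : BC U (fun k z => ∏ j ∈ B, lin (H j) (aff (f k) i z) ^ w j)
      (fun z => ∏ j ∈ B, lin (H j) (aff g i z) ^ w j) z0 rho :=
    BC.prod B fun j _ => (BC.lin hBC (H j)).pow (w j)
  have hb : ∃ z ∈ ball z0 rho, ∏ j ∈ B, lin (H j) (aff g i z) ^ w j ≠ 0 := by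
    have h1 := prod_ne hlim.bcurve.chart H B w hne hch (z := z0) (mem_ball_self rho_pos)
    have h2 : ∀ᶠ z in 𝓝[≠] z0, z ∈ ball z0 rho :=
      eventually_nhdsWithin_of_eventually_nhds (isOpen_ball.mem_nhds (mem_ball_self rho_pos))
    obtain ⟨z, hz1, hz2⟩ := (h1.and h2).exists
    exact ⟨z, hz2, hz1⟩
  refine quot_limit rho_pos hA hBB hb ?_
  filter_upwards [hi] with k hk
  obtain ⟨hck, Q, hQ, hQe⟩ := hk
  refine ⟨fun z => Q z * ∏ j ∈ A \ B, lin (H j) (aff (f k) i z) ^ w j, ?_, ?_⟩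
  · refine hQ.mul (DifferentiableOn.fun_finsetProd fun j _ => ?_)
    exact (lin_aff_diff hck (H j)).pow (w j)
  · intro z hz
    rw [hQe z hz, mul_assoc, Finset.prod_sdiff hB]

/-- the same for `P + δ_k s'(lam_k)` with `δ_k → 0` -/
theorem con_limit_small {N q R : ℕ} {U : Ultrafilter ℕ}
    {f : ℕ → ℂ → Fin (N + 1) → ℂ}
    {g : ℂ → Fin (N + 1) → ℂ} (hlim : IsLim U f g) (H : Fin q → Fin (N + 1) → ℂ)
    {A B : Finset (Fin q)} (w : Fin q → ℕ) (P : MvPolynomial (Fin (N + 1)) ℂ)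
    (S : Fin R → MvPolynomial (Fin (N + 1)) ℂ)
    {lam : ℕ → Fin R → ℂ} {l : Fin R → ℂ} (hlam : Tendsto lam (U : Filter ℕ) (𝓝 l))
    {δ : ℕ → ℂ} (hδ : Tendsto δ (U : Filter ℕ) (𝓝 0))
    (hcon : ∀ᶠ k in (U : Filter ℕ),
      Con H (f k) A w (P + MvPolynomial.C (δ k) * fam S (lam k)))
    (hB : B ⊆ A) (hne : ∀ j ∈ B, ∃ z, lin (H j) (g z) ≠ 0) : Con H g B w P := by
  set S' : Option (Fin R) → MvPolynomial (Fin (N + 1)) ℂ := fun o => o.elim P S with hS'
  have e : ∀ (c : ℂ) (v : Fin R → ℂ), fam S' (fun o => o.elim 1 (fun r => c * v r)) =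
      P + MvPolynomial.C c * fam S v := by
    intro c v
    simp only [fam, Fintype.sum_option, hS', Option.elim, map_one, one_mul, Finset.mul_sum, map_mul,
      mul_assoc]
  have h1 : Tendsto (fun k => (fun o : Option (Fin R) => o.elim 1 (fun r => δ k * lam k r)))
      (U : Filter ℕ) (𝓝 (fun o : Option (Fin R) => o.elim 1 (fun _ => 0))) := by
    rw [tendsto_pi_nhds]
    rintro (_ | r)
    · exact tendsto_const_nhds
    · have := hδ.mul (tendsto_pi_nhds.1 hlam r)
      rw [zero_mul] at this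
      exact this
  have h2 := con_limit_fam hlim H w S' h1 (A := A) (B := B)
    (hcon.mono fun k hk => by rw [e]; exact hk) hB hne
  have e2 : fam S' (fun o : Option (Fin R) => o.elim 1 (fun _ => 0)) = P := by
    simp [fam, Fintype.sum_option, hS']
  rwa [e2] at h2

/-- the values of converging members of a family -/
theorem eval_limit_fam {N d : ℕ} {ι : Type*} [Fintype ι] {U : Ultrafilter ℕ}
    {f : ℕ → ℂ → Fin (N + 1) → ℂ}
    {g : ℂ → Fin (N + 1) → ℂ} (hlim : IsLim U f g)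
    (hch : ∀ z0, ∀ᶠ k in (U : Filter ℕ), ∃ i, Chart (f k) z0 i)
    (S : ι → MvPolynomial (Fin (N + 1)) ℂ) (hS : ∀ r, (S r).IsHomogeneous d)
    {lam : ℕ → ι → ℂ} {l : ι → ℂ} (hlam : Tendsto lam (U : Filter ℕ) (𝓝 l))
    (h : ∀ z, ∀ᶠ k in (U : Filter ℕ), MvPolynomial.eval (f k z) (fam S (lam k)) = 0) :
    ∀ z, MvPolynomial.eval (g z) (fam S l) = 0 := by
  refine hlim.eval_seq_eq_zero hch (Fk := fun k => fam S (lam k)) (fam_hom hS l)
    (fun k => fam_hom hS _) ?_ h
  intro m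
  have h1 : ∀ v : ι → ℂ, (fam S v).coeff m = ∑ r, v r * (S r).coeff m := by
    intro v
    simp [fam, MvPolynomial.coeff_sum, MvPolynomial.coeff_C_mul]
  simp only [h1]
  refine tendsto_finsetSum _ fun r _ => ?_
  exact (tendsto_pi_nhds.1 hlam r).mul_const _

end Pool.Agent.H13.LS
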