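import Pool.Agent.H13.LS.All
import Pool.Agent.H8.RK.AlgS
import Pool.Agent.H28.SD.Dens2
import Pool.Agent.H97.LS.Miss

/-!
# Linear systems of hyperbolic hypersurfaces: final form
-/

open Metric Set Filter Topology Finset

set_option autoImplicit false

namespace Pool.Agent.H13.LS

open Pool.Agent.H97.HY Pool.Agent.H8.RK

/-- the coefficient vector of a form -/
noncomputable def cf {m : ℕ} (d : ℕ) (F : MvPolynomial (Fin m) ℂ) : Mon m d → ℂ :=
  fun α => F.coeff α.1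

/-- the form with a given coefficient vector -/
noncomputable def fo {m d : ℕ} (v : Mon m d → ℂ) : MvPolynomial (Fin m) ℂ :=
  ∑ α : Mon m d, MvPolynomial.monomial α.1 (v α)

theorem fo_hom {m d : ℕ} (v : Mon m d → ℂ) : (fo v).IsHomogeneous d := by
  unfold fo
  apply MvPolynomial.IsHomogeneous.sum
  intro α _
  exact MvPolynomial.isHomogeneous_monomial _ ((mem_mon α.1).1 α.2)

theorem cf_fo {m d : ℕ} (v : Mon m d → ℂ) : cf d (fo v) = v := by
  classical
  funext α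
  unfold cf fo
  rw [MvPolynomial.coeff_sum]
  simp only [MvPolynomial.coeff_monomial]
  rw [Finset.sum_eq_single α]
  · simp
  · intro β _ hβ
    rw [if_neg]
    intro h
    exact hβ (Subtype.ext h)
  · intro h
    exact absurd (Finset.mem_univ _) h

theorem coeff_fo {m d : ℕ} (v : Mon m d → ℂ) (α : Mon m d) : (fo v).coeff α.1 = v α :=
  congrFun (cf_fo v) α

theorem coeff_zero_of {m d : ℕ} {F : MvPolynomial (Fin m) ℂ} (hF : F.IsHomogeneous d)
    {u : Fin m →₀ ℕ} (hu : u ∉ Finset.finsuppAntidiag (Finset.univ : Finset (Fin m)) d) :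
    F.coeff u = 0 := by
  by_contra hne
  apply hu
  rw [mem_mon]
  have h2 := hF hne
  rw [← h2, Finsupp.degree_eq_weight_one]
  rfl

theorem cf_sum {m d R : ℕ} (F : Fin R → MvPolynomial (Fin m) ℂ) (lam : Fin R → ℂ) :
    cf d (∑ r, MvPolynomial.C (lam r) * F r) = ∑ r, lam r • cf d (F r) := by
  funext α
  unfold cf
  rw [MvPolynomial.coeff_sum, Finset.sum_apply]
  refine Finset.sum_congr rfl fun r _ => ?_
  rw [MvPolynomial.coeff_C_mul, Pi.smul_apply, smul_eq_mul]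

theorem cf_inj {m d : ℕ} {F G : MvPolynomial (Fin m) ℂ} (hF : F.IsHomogeneous d)
    (hG : G.IsHomogeneous d) (h : cf d F = cf d G) : F = G := by
  ext u
  by_cases hu : u ∈ Finset.finsuppAntidiag (Finset.univ : Finset (Fin m)) d
  · exact congrFun h ⟨u, hu⟩
  · rw [coeff_zero_of hF hu, coeff_zero_of hG hu]

/-- general position: the statement used -/
def Dens2 : Prop := ∀ {σ : Type} [Fintype σ] (P : Ideal (MvPolynomial σ ℂ)) [P.IsPrime]
  (_ : ∀ f ∈ P, ∀ j, MvPolynomial.homogeneousComponent j f ∈ P) (Q : MvPolynomial σ ℂ)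
  (_ : Q ∉ P) (k : ℕ)
  (_ : (Fintype.card σ : WithBot ℕ∞) ≤
    ringKrullDim (MvPolynomial σ ℂ ⧸ P) + (k : WithBot ℕ∞))
  (U : Set (Fin (k + 1) → σ → ℂ)) (_ : IsOpen U) (_ : U.Nonempty)
  (_ : ∀ v ∈ U, ∀ lam : Fin (k + 1) → ℂ, lam ≠ 0 → ∑ i, lam i • v i ≠ 0),
  ∃ U' ⊆ U, IsOpen U' ∧ U'.Nonempty ∧ ∀ v ∈ U', ∃ lam : Fin (k + 1) → ℂ, lam ≠ 0 ∧
    (∀ f ∈ P, MvPolynomial.eval (∑ i, lam i • v i) f = 0) ∧
    MvPolynomial.eval (∑ i, lam i • v i) Q ≠ 0

theorem dens2_holds : Dens2 := by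
  intro σ _ P _ hP Q hQ k hdim U hU hne hli
  exact Pool.Agent.H28.SD.dens2
    (fun J hJ R h U hU hne => Pool.Agent.H97.LS.exists_system_missing J hJ R h U hU hne)
    P hP Q hQ k hdim U hU hne hli

theorem mainS (hD : Dens2) {n k d : ℕ} (hn : 1 ≤ n)
    (hd : 27 * (n + 1) + 21 * k ≤ d ∨ (k = 0 ∧ 24 * (n + 1) ≤ d))
    (P : Ideal (MvPolynomial ↥(Finset.finsuppAntidiag (Finset.univ : Finset (Fin (n + 2))) d) ℂ))
    (hP : P.IsPrime) (hhom : ∀ f ∈ P, ∀ j, MvPolynomial.homogeneousComponent j f ∈ P)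
    (hdim : (Fintype.card ↥(Finset.finsuppAntidiag (Finset.univ : Finset (Fin (n + 2))) d) :
        WithBot ℕ∞) ≤
      ringKrullDim (MvPolynomial ↥(Finset.finsuppAntidiag
        (Finset.univ : Finset (Fin (n + 2))) d) ℂ ⧸ P) + (k : WithBot ℕ∞))
    (Q : MvPolynomial ↥(Finset.finsuppAntidiag (Finset.univ : Finset (Fin (n + 2))) d) ℂ)
    (hQ : Q ∉ P) :
    ∃ F₀ : Fin (k + 1) → MvPolynomial (Fin (n + 2)) ℂ, (∀ r, (F₀ r).IsHomogeneous d) ∧
      (∀ r, ∀ x : Fin (n + 2) → ℂ, x ≠ 0 → MvPolynomial.eval x (F₀ r) = 0 →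
        ∃ i, MvPolynomial.eval x (MvPolynomial.pderiv i (F₀ r)) ≠ 0) ∧
      ∃ ε : ℝ, 0 < ε ∧ ∀ F : Fin (k + 1) → MvPolynomial (Fin (n + 2)) ℂ,
        (∀ r, (F r).IsHomogeneous d) → (∀ r m, ‖(F r).coeff m - (F₀ r).coeff m‖ < ε) →
        (∀ lam : Fin (k + 1) → ℂ, lam ≠ 0 →
          ∀ g : ℂ → Fin (n + 2) → ℂ, Differentiable ℂ g → (∀ z, g z ≠ 0) →
            (∀ z, MvPolynomial.eval (g z) (∑ r, MvPolynomial.C (lam r) * F r) = 0) →
            ∀ z, ∃ c : ℂ, g z = c • g 0) ∧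
        ∃ lam : Fin (k + 1) → ℂ, lam ≠ 0 ∧
          (∀ f ∈ P, MvPolynomial.eval
            (fun α : ↥(Finset.finsuppAntidiag (Finset.univ : Finset (Fin (n + 2))) d) =>
              (∑ r, MvPolynomial.C (lam r) * F r).coeff α.1) f = 0) ∧
          MvPolynomial.eval
            (fun α : ↥(Finset.finsuppAntidiag (Finset.univ : Finset (Fin (n + 2))) d) =>
              (∑ r, MvPolynomial.C (lam r) * F r).coeff α.1) Q ≠ 0 := by
  obtain ⟨K, hK1, hK2⟩ : ∃ K : ℕ, 7 * ((k + 1) - 1) ≤ (n + 1) * K ∧ 3 * (n + 1) * (8 + K) ≤ d := by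
    rw [Nat.add_sub_cancel]
    rcases hd with h | ⟨h0, h1⟩
    · refine ⟨(7 * k + n) / (n + 1), ?_, ?_⟩
      · have h3 := Nat.lt_div_mul_add (a := 7 * k + n) (b := n + 1) (by omega)
        have h4 : (7 * k + n) / (n + 1) * (n + 1) = (n + 1) * ((7 * k + n) / (n + 1)) :=
          Nat.mul_comm _ _
        omega
      · have h3 := Nat.div_mul_le_self (7 * k + n) (n + 1)
        have h4 : 3 * (n + 1) * (8 + (7 * k + n) / (n + 1)) =
            24 * (n + 1) + 3 * ((7 * k + n) / (n + 1) * (n + 1)) := by ring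
        rw [h4]
        omega
    · refine ⟨0, ?_, ?_⟩
      · rw [h0]
        simp
      · omega
  obtain ⟨F₁, hF₁, -, ε, hε, hsys⟩ := mainL (N := n + 1) (R := k + 1) (k := K) (d := d)
    (by omega) (by omega) hK1 hK2
  have hd2 : 2 ≤ d := by omega
  -- the open set
  have hmem : ∀ v : Fin (k + 1) → Mon (n + 2) d → ℂ,
      v ∈ Metric.ball (fun r => cf d (F₁ r)) ε →
      ∀ F : Fin (k + 1) → MvPolynomial (Fin (n + 2)) ℂ, (∀ r, (F r).IsHomogeneous d) →
        (∀ r, cf d (F r) = v r) → ∀ r m, ‖(F r).coeff m - (F₁ r).coeff m‖ < ε := by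
    intro v hv F hF hFv r m
    by_cases hm : m ∈ Finset.finsuppAntidiag (Finset.univ : Finset (Fin (n + 2))) d
    · rw [Metric.mem_ball, dist_pi_lt_iff hε] at hv
      have h1 := hv r
      rw [dist_pi_lt_iff hε] at h1
      have h2 := h1 ⟨m, hm⟩
      rw [dist_eq_norm, ← hFv r] at h2
      exact h2
    · rw [coeff_zero_of (hF r) hm, coeff_zero_of (hF₁ r) hm, sub_zero, norm_zero]
      exact hε
  obtain ⟨U', hU'sub, hU'o, ⟨v', hv'⟩, hU'⟩ := hD P hhom Q hQ k hdim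
    (Metric.ball (fun r => cf d (F₁ r)) ε) Metric.isOpen_ball
    ⟨_, Metric.mem_ball_self hε⟩ (by
      intro v hv lam hlam h0
      have h1 := hsys (fun r => fo (v r)) (fun r => fo_hom (v r))
        (hmem v hv _ (fun r => fo_hom (v r)) (fun r => cf_fo (v r))) lam hlam
      have h2 : ∑ r, MvPolynomial.C (lam r) * fo (v r) = 0 := by
        apply cf_inj (d := d)
        · apply MvPolynomial.IsHomogeneous.sum
          intro r _
          have := (MvPolynomial.isHomogeneous_C (Fin (n + 2)) (lam r)).mul (fo_hom (v r))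
          rwa [zero_add] at this
        · exact MvPolynomial.isHomogeneous_zero _ _ _
        · rw [cf_sum]
          simp only [cf_fo]
          rw [h0]
          funext α
          simp [cf]
      rw [h2] at h1
      exact not_hypP_zero n h1)
  obtain ⟨δ, hδ, hball⟩ := Metric.isOpen_iff.1 hU'o v' hv'
  choose F₀ hF₀ hclose hsm using fun r => exists_smooth_near hd2 (fo_hom (v' r)) (half_pos hδ)
  refine ⟨F₀, hF₀, hsm, δ / 2, half_pos hδ, ?_⟩
  intro F hF hFc
  have hFU : (fun r => cf d (F r)) ∈ U' := by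
    apply hball
    rw [Metric.mem_ball, dist_pi_lt_iff hδ]
    intro r
    rw [dist_pi_lt_iff hδ]
    intro α
    rw [dist_eq_norm]
    have h1 := hFc r α.1
    have h2 := hclose r α.1
    rw [coeff_fo] at h2
    calc ‖cf d (F r) α - v' r α‖ =
          ‖((F r).coeff α.1 - (F₀ r).coeff α.1) + ((F₀ r).coeff α.1 - v' r α)‖ := by
          unfold cf
          ring_nf
      _ ≤ ‖(F r).coeff α.1 - (F₀ r).coeff α.1‖ + ‖(F₀ r).coeff α.1 - v' r α‖ :=
          norm_add_le _ _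
      _ < δ := by linarith
  refine ⟨hsys F hF (hmem _ (hU'sub hFU) F hF fun r => rfl), ?_⟩
  obtain ⟨lam, hlam, h1, h2⟩ := hU' _ hFU
  have e : (fun α : ↥(Finset.finsuppAntidiag (Finset.univ : Finset (Fin (n + 2))) d) =>
      (∑ r, MvPolynomial.C (lam r) * F r).coeff α.1) = ∑ r, lam r • cf d (F r) := cf_sum F lam
  refine ⟨lam, hlam, ?_, ?_⟩
  · intro f hf
    rw [e]
    exact h1 f hf
  · rw [e]
    exact h2

end Pool.Agent.H13.LS
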