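import Pool.Agent.H13.LS.Tr

/-!
# Linear systems of hyperbolic hypersurfaces: outer induction and start
-/

open Metric Set Filter Topology Finset

set_option autoImplicit false

namespace Pool.Agent.H13.LS

open Pool.Agent.H97.HY Pool.Agent.H32.LD

/-- the winning property for systems of dimension `R` -/
def WinningL {N q D d : ℕ} (T : Tw N q D d) (R : ℕ) : Prop :=
  ∀ (s : MvPolynomial (Fin (N + 1)) ℂ) (J : Finset (Fin q)) (X : Finset (Fin (D * q))),
    X.card + 2 ≤ J.card + R → Emp2 T s J (D * q) X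

private theorem descend {N q D d R : ℕ} (T : Tw N q D d) (P : Finset (Finset (Fin q)))
    (J1 : Finset (Fin q)) (hP1 : ∀ J : Finset (Fin q), J.card < J1.card → J ∈ P)
    (hP2 : ∀ J ∈ P, J.card ≤ J1.card) (hM : ICL T R P J1 (D * q)) :
    ∀ k, k ≤ D * q → ICL T R P J1 (D * q - k) := by
  intro k
  induction k with
  | zero => intro _; simpa using hM
  | succ k ih =>
    intro hk
    have h1 := ih (by omega)
    have hlt : D * q - (k + 1) < D * q := by omega
    have h2 : D * q - k = ((⟨D * q - (k + 1), hlt⟩ : Fin (D * q)) : ℕ) + 1 := by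
      simp only
      omega
    rw [h2] at h1
    exact inner_stepL T P J1 hP1 hP2 ⟨D * q - (k + 1), hlt⟩ h1

private theorem aux {N q D d R : ℕ} (T : Tw N q D d) (hwin : WinningL T R) :
    ∀ (n : ℕ) (P : Finset (Finset (Fin q))), (Pᶜ).card = n →
      (∃ c, (∀ J : Finset (Fin q), J.card < c → J ∈ P) ∧ ∀ J ∈ P, J.card ≤ c) → OCL T R P := by
  intro n
  induction n with
  | zero =>
    intro P hP _ A
    refine ⟨fun _ => 0, fun _ => MvPolynomial.isHomogeneous_zero _ _ _, fun lam _ J hJ => ?_⟩
    exfalso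
    rw [Finset.card_eq_zero] at hP
    have : J ∈ Pᶜ := Finset.mem_compl.mpr hJ
    rw [hP] at this
    exact absurd this (Finset.notMem_empty J)
  | succ n ih =>
    rintro P hP ⟨c, hc1, hc2⟩
    have hne : (Pᶜ).Nonempty := by
      rw [← Finset.card_pos]
      omega
    obtain ⟨J1, hJ1, hmin⟩ := Finset.exists_min_image (Pᶜ) Finset.card hne
    rw [Finset.mem_compl] at hJ1
    have hP1 : ∀ J : Finset (Fin q), J.card < J1.card → J ∈ P := by
      intro J hJ
      by_contra h
      have := hmin J (Finset.mem_compl.mpr h)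
      omega
    have hcJ : c ≤ J1.card := by
      by_contra h
      exact hJ1 (hc1 J1 (by omega))
    have hP2 : ∀ J ∈ P, J.card ≤ J1.card := fun J hJ => (hc2 J hJ).trans hcJ
    have hins : OCL T R (insert J1 P) := by
      refine ih (insert J1 P) ?_ ⟨J1.card, fun J hJ => Finset.mem_insert_of_mem (hP1 J hJ), ?_⟩
      · rw [Finset.compl_insert, Finset.card_erase_of_mem (Finset.mem_compl.mpr hJ1), hP]
        omega
      · intro J hJ
        rcases Finset.mem_insert.mp hJ with rfl | h
        · exact le_rfl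
        · exact hP2 J h
    have hM : ICL T R P J1 (D * q) := by
      intro A
      obtain ⟨S, hS, h⟩ := hins A
      refine ⟨S, hS, fun lam hlam => ⟨fun J hJ hne τ0 hτ X hX => ?_, fun τ0 h1 h2 X hX => ?_⟩⟩
      · refine h lam hlam J ?_ τ0 hτ X hX
        rw [Finset.mem_insert]
        rintro (h' | h')
        · exact hne h'
        · exact hJ h'
      · obtain rfl : τ0 = D * q := le_antisymm h2 h1
        have hlam0 : lam ≠ 0 := by
          intro h0
          rw [h0, norm_zero] at hlam
          exact zero_ne_one hlam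
        have h3 := lost_lt A hlam0
        exact hwin _ J1 X (by omega)
    have h0 := descend T P J1 hP1 hP2 hM (D * q) le_rfl
    rw [Nat.sub_self] at h0
    intro A
    obtain ⟨S, hS, h⟩ := h0 A
    refine ⟨S, hS, fun lam hlam J hJ τ0 hτ X hX => ?_⟩
    by_cases hJJ : J = J1
    · subst hJJ
      exact (h lam hlam).2 τ0 (Nat.zero_le _) hτ X hX
    · exact (h lam hlam).1 J hJ hJJ τ0 hτ X hX

theorem outerL {N q D d R : ℕ} (T : Tw N q D d) (hwin : WinningL T R) : OCL T R ∅ := by
  refine aux T hwin _ ∅ rfl ⟨0, fun J hJ => absurd hJ (Nat.not_lt_zero _), fun J hJ => ?_⟩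
  exact absurd hJ (Finset.notMem_empty J)

private theorem tendsto_small : Tendsto (fun k : ℕ => 1 / ((k : ℂ) + 1))
    ((hyperfilter ℕ : Ultrafilter ℕ) : Filter ℕ) (𝓝 0) :=
  (tendsto_one_div_add_atTop_nhds_zero_nat (𝕜 := ℂ)).mono_left Nat.hyperfilter_le_atTop

theorem startL {N q D d R : ℕ} (T : Tw N q D d) (h : OCL T R ∅) :
    ∃ F : Fin R → MvPolynomial (Fin (N + 1)) ℂ, (∀ r, (F r).IsHomogeneous d) ∧
      ∀ lam : Fin R → ℂ, ‖lam‖ = 1 → ¬ Hits (fam F lam) := by
  classical
  obtain ⟨S0, hS0, hE⟩ := h {0}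
  by_contra hcon
  have hPd : (prodP T.H T.a).IsHomogeneous d := by
    have := prodP_hom T.H T.a
    rwa [T.a_sum] at this
  set Sk : ℕ → Fin R → MvPolynomial (Fin (N + 1)) ℂ := fun k r =>
    MvPolynomial.C ((0 : ℂ) ^ (r : ℕ)) * prodP T.H T.a +
      MvPolynomial.C ((1 : ℂ) / ((k : ℂ) + 1)) * S0 r with hSk
  have hSkf : ∀ k lam, fam (Sk k) lam = MvPolynomial.C (ev 0 lam) * prodP T.H T.a +
      MvPolynomial.C ((1 : ℂ) / ((k : ℂ) + 1)) * fam S0 lam := fun k lam => by
    rw [hSk]
    exact fam_level _ _ _ _ _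
  have hhom : ∀ k r, (Sk k r).IsHomogeneous d := by
    intro k r
    apply MvPolynomial.IsHomogeneous.add
    · have := (MvPolynomial.isHomogeneous_C (Fin (N + 1)) ((0 : ℂ) ^ (r : ℕ))).mul hPd
      rwa [zero_add] at this
    · have := (MvPolynomial.isHomogeneous_C (Fin (N + 1)) ((1 : ℂ) / ((k : ℂ) + 1))).mul
        (hS0 r)
      rwa [zero_add] at this
  have hFk : ∀ k : ℕ, ∃ lam : Fin R → ℂ, ‖lam‖ = 1 ∧ Hits (fam (Sk k) lam) := by
    intro k
    by_contra hno
    push Not at hno
    exact hcon ⟨Sk k, hhom k, hno⟩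
  choose lam hlam1 hlam2 using hFk
  choose f hf hf0 using hlam2
  obtain ⟨l, hl1, hlt⟩ := sphere_limit (U := hyperfilter ℕ) (lam := lam)
    (Eventually.of_forall hlam1)
  obtain ⟨g, hg⟩ := exists_limit_bcurve (hyperfilter ℕ) f (Eventually.of_forall hf)
  have hδ0 : ∀ k : ℕ, (1 : ℂ) / ((k : ℂ) + 1) ≠ 0 := fun k =>
    one_div_ne_zero (Nat.cast_add_one_ne_zero k)
  set J : Finset (Fin q) := univ.filter (fun i => ∀ z, lin (T.H i) (g z) = 0) with hJ
  have hmem : ∀ i, i ∈ J ↔ ∀ z, lin (T.H i) (g z) = 0 := by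
    intro i
    simp [hJ]
  have hcard : (∅ : Finset (Fin (D * q))).card + 1 ≤ J.card + lost {0} l := by
    rw [Finset.card_empty, zero_add]
    by_cases h0 : ev 0 l = 0
    · have h1 := lost_insert (∅ : Finset ℂ) (x := 0) (Finset.notMem_empty _) l h0
      rw [show insert (0 : ℂ) (∅ : Finset ℂ) = {0} from rfl] at h1
      omega
    · -- the limit curve lies in a hyperplane
      have hne : ∀ᶠ k in ((hyperfilter ℕ : Ultrafilter ℕ) : Filter ℕ), ev 0 (lam k) ≠ 0 :=
        (tendsto_ev hlt 0).eventually_ne h0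
      have hg0 : ∀ z, MvPolynomial.eval (g z) (prodP T.H T.a) = 0 := by
        intro z
        set S' : Option (Fin R) → MvPolynomial (Fin (N + 1)) ℂ :=
          fun o => o.elim (prodP T.H T.a) S0 with hS'
        have h1 : Tendsto (fun k => (fun o : Option (Fin R) => o.elim (ev 0 (lam k))
            (fun r => (1 : ℂ) / ((k : ℂ) + 1) * lam k r)))
            ((hyperfilter ℕ : Ultrafilter ℕ) : Filter ℕ)
            (𝓝 (fun o : Option (Fin R) => o.elim (ev 0 l) (fun _ => 0))) := by
          rw [tendsto_pi_nhds]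
          rintro (_ | r)
          · exact tendsto_ev hlt 0
          · have := tendsto_small.mul (tendsto_pi_nhds.1 hlt r)
            rw [zero_mul] at this
            exact this
        have e : ∀ (a c : ℂ) (v : Fin R → ℂ), fam S' (fun o => o.elim a (fun r => c * v r)) =
            MvPolynomial.C a * prodP T.H T.a + MvPolynomial.C c * fam S0 v := by
          intro a c v
          simp only [fam, Fintype.sum_option, hS', Option.elim, Finset.mul_sum, map_mul,
            mul_assoc]
        have h2 := eval_limit_fam (d := d) hg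
          (fun z0 => Eventually.of_forall fun k => (hf k).chart z0) S'
          (by rintro (_ | r)
              · exact hPd
              · exact hS0 r) h1
          (fun z => Eventually.of_forall fun k => by
            rw [e]
            have := hf0 k z
            rwa [hSkf] at this) z
        have e2 : fam S' (fun o : Option (Fin R) => o.elim (ev 0 l) (fun _ => 0)) =
            MvPolynomial.C (ev 0 l) * prodP T.H T.a := by
          simp [fam, Fintype.sum_option, hS']
        rw [e2, map_mul, MvPolynomial.eval_C] at h2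
        exact (mul_eq_zero.1 h2).resolve_left h0
      obtain ⟨j, hj⟩ := exists_van_of_prod hg.bcurve.chart T.H T.a hg0
      have : 0 < J.card := Finset.card_pos.mpr ⟨j, (hmem j).mpr hj⟩
      omega
  refine hE l hl1 J (Finset.notMem_empty J) 0 (Nat.zero_le _) ∅ hcard g ?_
  refine ⟨hg.bcurve, hmem, ?_, fun p i j _ _ _ hk => absurd hk (Nat.not_lt_zero _)⟩
  have hW0 : T.W 0 = T.a := W_zero (T.to ∅)
  rw [hW0]
  refine con_limit_fam hg T.H T.a S0 hlt (A := Jᶜ) (B := Jᶜ) ?_ (Finset.Subset.refl _) ?_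
  · refine Eventually.of_forall fun k => ?_
    refine con_start_c (p := ev 0 (lam k)) (hf k).chart T.a_sum (fam_hom hS0 _) (hδ0 k)
      (fun z => ?_) Jᶜ
    have := hf0 k z
    rwa [hSkf] at this
  · intro i hi
    rw [Finset.mem_compl, hmem] at hi
    by_contra hne
    apply hi
    intro z
    by_contra hz
    exact hne ⟨z, hz⟩

end Pool.Agent.H13.LS
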