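import Pool.Agent.H13.LS.Cns
import Pool.Agent.H97.HY.Edge

/-!
# Linear systems of hyperbolic hypersurfaces: transition and inner step
-/

open Metric Set Filter Topology Finset

set_option autoImplicit false

namespace Pool.Agent.H13.LS

open Pool.Agent.H97.HY Pool.Agent.H32.LD

/-- outer claim -/
def OCL {N q D d : ℕ} (T : Tw N q D d) (R : ℕ) (P : Finset (Finset (Fin q))) : Prop :=
  ∀ A : Finset ℂ, ∃ S : Fin R → MvPolynomial (Fin (N + 1)) ℂ, (∀ r, (S r).IsHomogeneous d) ∧
    ∀ lam : Fin R → ℂ, ‖lam‖ = 1 → ∀ J, J ∉ P → ∀ τ0 ≤ D * q,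
      ∀ X : Finset (Fin (D * q)), X.card + 1 ≤ J.card + lost A lam → Emp2 T (fam S lam) J τ0 X

/-- inner claim -/
def ICL {N q D d : ℕ} (T : Tw N q D d) (R : ℕ) (P : Finset (Finset (Fin q)))
    (J1 : Finset (Fin q)) (τ : ℕ) : Prop :=
  ∀ A : Finset ℂ, ∃ S : Fin R → MvPolynomial (Fin (N + 1)) ℂ, (∀ r, (S r).IsHomogeneous d) ∧
    ∀ lam : Fin R → ℂ, ‖lam‖ = 1 →
      (∀ J, J ∉ P → J ≠ J1 → ∀ τ0 ≤ D * q, ∀ X : Finset (Fin (D * q)),
        X.card + 1 ≤ J.card + lost A lam → Emp2 T (fam S lam) J τ0 X) ∧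
      ∀ τ0, τ ≤ τ0 → τ0 ≤ D * q → ∀ X : Finset (Fin (D * q)),
        X.card + 1 ≤ J1.card + lost A lam → Emp2 T (fam S lam) J1 τ0 X

private lemma b_off {N q M d : ℕ} (T : Tow N q M d) (J1 : Finset (Fin q)) (τ : Fin M)
    {i : Fin q} (hi : i ∉ J1ᶜ) : T.b J1 τ i = 0 :=
  b_mem T J1 τ (by simpa using hi)

theorem transitionL {N q D d R : ℕ} (T : Tw N q D d) (J1 : Finset (Fin q)) (τ : Fin (D * q))
    (ht : (T.to J1).tail τ ∉ J1) (hh : (T.to J1).head τ ∉ J1)
    (hth : (T.to J1).tail τ ≠ (T.to J1).head τ)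
    (S' : Fin R → MvPolynomial (Fin (N + 1)) ℂ) (x : ℂ) (X : Finset (Fin (D * q))) (τ0 : ℕ)
    (hτ0 : (τ : ℕ) ≤ τ0)
    (U : Ultrafilter ℕ) (lam : ℕ → Fin R → ℂ) (l : Fin R → ℂ)
    (hlam : Tendsto lam (U : Filter ℕ) (𝓝 l))
    (δ : ℕ → ℂ) (hδ : Tendsto δ (U : Filter ℕ) (𝓝 0)) (hδ0 : ∀ k, δ k ≠ 0)
    (f : ℕ → ℂ → Fin (N + 1) → ℂ)
    (hst : ∀ᶠ k in (U : Filter ℕ),
      Sta2 T (f k) J1 τ0 X (MvPolynomial.C (ev x (lam k)) * prodP T.H ((T.to J1).b J1 τ) +
        MvPolynomial.C (δ k) * fam S' (lam k))) :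
    ∃ (g : ℂ → Fin (N + 1) → ℂ) (J' : Finset (Fin q)), J1 ⊆ J' ∧
      (((τ : ℕ) < τ0 ∧ Sta2 T g J' τ0 X (fam S' l)) ∨
        (τ0 = τ ∧ J' ≠ J1 ∧ Sta2 T g J' (τ + 1) (insert τ X) (fam S' l)) ∨
        (τ0 = τ ∧ ev x l = 0 ∧ Sta2 T g J1 (τ + 1) (insert τ X) (fam S' l)) ∨
        (τ0 = τ ∧ J' = J1 ∧ Sta2 T g J1 (τ + 1) X (fam S' l))) := by
  classical
  obtain ⟨g, hg⟩ := exists_limit_bcurve U f (hst.mono (fun _ h => h.bcurve))
  have hchU : ∀ z0, ∀ᶠ k in (U : Filter ℕ), ∃ i, Chart (f k) z0 i :=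
    fun z0 => hst.mono (fun _ h => h.bcurve.chart z0)
  set J' : Finset (Fin q) := Finset.univ.filter (fun i => ∀ z, lin (T.H i) (g z) = 0) with hJ'
  have hmem : ∀ i, i ∈ J' ↔ ∀ z, lin (T.H i) (g z) = 0 := by
    intro i
    simp [hJ']
  have hsub : J1 ⊆ J' := by
    intro i hi
    rw [hmem]
    exact hg.lin_eq_zero hchU (T.H i) (fun z => hst.mono (fun _ h => (h.mem_iff i).mp hi z))
  have hnv : ∀ j, j ∉ J' → ∃ z, lin (T.H j) (g z) ≠ 0 := by
    intro j hj
    rw [hmem] at hj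
    push Not at hj
    exact hj
  have hcompl : J'ᶜ ⊆ J1ᶜ := Finset.compl_subset_compl.mpr hsub
  have hcon1 : Con T.H g J'ᶜ (fun i => min (T.W τ0 i) ((T.to J1).b J1 τ i)) (fam S' l) := by
    refine con_limit_fam hg T.H _ S' hlam (A := J1ᶜ) ?_ hcompl
      (fun j hj => hnv j (by simpa using hj))
    filter_upwards [hst] with k hk
    exact con_step_c (hδ0 k) (fun i hi => b_off (T.to J1) J1 τ hi) hk.con
  -- old relations
  have hrel : ∀ (p : Fin D) (i j : Fin q), i < j → T.ord p i ∉ J' → T.ord p j ∉ J' →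
      ((idx p j : Fin (D * q)) : ℕ) < τ0 → (∀ l : Fin q, i < l → l ≤ j → idx p l ∉ X) →
      Con T.H g {T.ord p j} (fun _ => 1) (linP (T.H (T.ord p i)) ^ (d ^ ((j : ℕ) - i))) := by
    intro p i j hij hi hj hlt hX
    refine con_limit_const hg T.H _ _ (A := {T.ord p j}) ?_ (Finset.Subset.refl _) ?_
    · filter_upwards [hst] with l hl
      exact hl.rel p i j hij (fun h => hi (hsub h)) (fun h => hj (hsub h)) hlt hX
    · intro y hy
      rw [Finset.mem_singleton] at hy
      rw [hy]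
      exact hnv _ hj
  refine ⟨g, J', hsub, ?_⟩
  rcases Nat.lt_or_ge (τ : ℕ) τ0 with hlt | hge
  · left
    refine ⟨hlt, hg.bcurve, hmem, ?_, hrel⟩
    refine hcon1.mono (Finset.Subset.refl _) (fun i hi => ?_)
    have hiJ : i ∉ J1 := fun h => (by simpa using hi : i ∉ J') (hsub h)
    exact min_W_b_eq (T.to J1) J1 τ hh hlt hiJ
  · right
    have heq : τ0 = τ := le_antisymm hge hτ0
    subst heq
    have hcon2 : Con T.H g J'ᶜ (T.W ((τ : ℕ) + 1)) (fam S' l) := by
      refine hcon1.mono (Finset.Subset.refl _) (fun i hi => ?_)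
      have hiJ : i ∉ J1 := fun h => (by simpa using hi : i ∉ J') (hsub h)
      exact min_W_b_ge (T.to J1) J1 τ hh hiJ
    -- the wasted unit
    have hwaste : Sta2 T g J' (τ + 1) (insert τ X) (fam S' l) := by
      refine ⟨hg.bcurve, hmem, hcon2, ?_⟩
      intro p i j hij hi hj hlt hX
      rcases Nat.lt_succ_iff_lt_or_eq.mp hlt with hk' | hk'
      · exact hrel p i j hij hi hj hk'
          (fun l hl1 hl2 h => hX l hl1 hl2 (Finset.mem_insert_of_mem h))
      · have hkτ : idx p j = τ := Fin.ext hk'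
        exact absurd (Finset.mem_insert.mpr (Or.inl hkτ)) (hX j hij le_rfl)
    by_cases hJJ : J' = J1
    · right
      by_cases hb : ∃ C : ℝ, ∀ᶠ k in (U : Filter ℕ), ‖ev x (lam k)‖ ≤ C * ‖δ k‖
      · left
        obtain ⟨C, hC⟩ := hb
        refine ⟨rfl, ?_, ?_⟩
        · have h1 := (tendsto_ev hlam x).norm
          have h2 : Tendsto (fun k => C * ‖δ k‖) (U : Filter ℕ) (𝓝 0) := by
            have := (hδ.norm).const_mul C
            rw [norm_zero, mul_zero] at this
            exact this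
          have h3 := le_of_tendsto_of_tendsto h1 h2 hC
          exact norm_le_zero_iff.1 h3
        · rw [← hJJ]
          exact hwaste
      · right
        refine ⟨rfl, hJJ, ?_⟩
        push Not at hb
        have hbig : ∀ C : ℝ, ∀ᶠ k in (U : Filter ℕ), C * ‖δ k‖ < ‖ev x (lam k)‖ := hb
        set δ' : ℕ → ℂ := fun k => δ k / ev x (lam k) with hδ'
        have hδ't : Tendsto δ' (U : Filter ℕ) (𝓝 0) := by
          rw [tendsto_zero_iff_norm_tendsto_zero]
          rw [Metric.tendsto_nhds]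
          intro ε hε
          filter_upwards [hbig ε⁻¹] with k hk
          rw [dist_zero_right, norm_norm, hδ', norm_div]
          have h1 : 0 < ‖δ k‖ := norm_pos_iff.2 (hδ0 k)
          have h2 : 0 < ‖ev x (lam k)‖ := lt_trans (by positivity) hk
          rw [div_lt_iff₀ h2]
          have h3 : ε * (ε⁻¹ * ‖δ k‖) < ε * ‖ev x (lam k)‖ := mul_lt_mul_of_pos_left hk hε
          rwa [← mul_assoc, mul_inv_cancel₀ hε.ne', one_mul] at h3
        have hcon3 : Con T.H g J1ᶜ (T.W (τ : ℕ)) (prodP T.H ((T.to J1).b J1 τ)) := by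
          refine con_limit_small hg T.H _ _ S' hlam hδ't (A := J1ᶜ) ?_
            (Finset.Subset.refl _) (fun j hj => hnv j ?_)
          · filter_upwards [hst, hbig 0] with k hk hk0
            have hne : ev x (lam k) ≠ 0 := by
              intro h0
              rw [h0, norm_zero, zero_mul] at hk0
              exact lt_irrefl _ hk0
            refine con_scale hne ?_
            have e : MvPolynomial.C (ev x (lam k)) * (prodP T.H ((T.to J1).b J1 τ) +
                MvPolynomial.C (δ' k) * fam S' (lam k)) =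
                MvPolynomial.C (ev x (lam k)) * prodP T.H ((T.to J1).b J1 τ) +
                  MvPolynomial.C (δ k) * fam S' (lam k) := by
              have e1 : MvPolynomial.C (σ := Fin (N + 1)) (ev x (lam k)) * MvPolynomial.C (δ' k) =
                  MvPolynomial.C (δ k) := by
                rw [← map_mul, hδ', mul_div_cancel₀ _ hne]
              rw [mul_add, ← mul_assoc, ← e1]
            rw [e]
            exact hk.con
          · rw [hJJ]
            simpa using hj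
        have hnew : Con T.H g {(T.to J1).tail τ} (fun _ => 1)
            (linP (T.H ((T.to J1).head τ)) ^ d) := by
          refine new_edge hg.bcurve.chart (A := J1ᶜ) (fun j hj => hnv j ?_) (by simpa using ht)
            (by simpa using hh) hth (fun i hi => b_off (T.to J1) J1 τ hi) ?_ ?_ ?_ ?_ hcon3
          · rw [hJJ]
            simpa using hj
          · intro i hi hit hih
            rw [b_other (T.to J1) J1 τ (by simpa using hi) hih, W_succ_ne (T.to J1) τ hit, to_W]
          · rw [b_other (T.to J1) J1 τ ht hth, W_succ_tail, to_W]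
          · exact b_head_ge (T.to J1) J1 τ hh τ
          · exact (b_le (T.to J1) J1 τ _).trans (Nat.le_add_right _ _)
        refine ⟨hg.bcurve, ?_, ?_, ?_⟩
        · rw [← hJJ]
          exact hmem
        · rw [← hJJ]
          exact hcon2
        · intro p i j hij hi hj hlt hX
          rcases Nat.lt_succ_iff_lt_or_eq.mp hlt with hk' | hk'
          · exact hrel p i j hij (by rw [hJJ]; exact hi) (by rw [hJJ]; exact hj) hk' hX
          · have hkτ : idx p j = τ := Fin.ext hk'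
            obtain ⟨h1, h2, h3⟩ := hp_spec T hij hi
            rw [← hkτ, to_tail_idx, to_head_idx] at hnew
            have hd := d_pos T j
            set y := T.hp J1 p j with hy
            rcases eq_or_lt_of_le h3 with h4 | h4
            · rw [← h4] at hnew
              refine con_pow_mono ?_ hnew
              calc d = d ^ 1 := (pow_one d).symm
                _ ≤ d ^ ((j : ℕ) - i) := Nat.pow_le_pow_right hd (by
                    have : (i : ℕ) < j := hij
                    omega)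
            · have hlt2 : ((idx p y : Fin (D * q)) : ℕ) < (τ : ℕ) := by
                rw [← hkτ, idx_val, idx_val]
                have : (y : ℕ) < j := h1
                omega
              have hold := hrel p i y h4 (by rw [hJJ]; exact hi) (by rw [hJJ]; exact h2) hlt2
                (fun l hl1 hl2 => hX l hl1 (hl2.trans h1.le))
              have hcomp := con_trans (Nat.one_le_pow _ _ hd) hnew hold
              refine con_pow_mono ?_ hcomp
              have h5 : (i : ℕ) < y := h4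
              have h6 : (y : ℕ) < j := h1
              calc d * d ^ ((y : ℕ) - i) = d ^ ((y : ℕ) - i + 1) := by rw [pow_succ]; ring
                _ ≤ d ^ ((j : ℕ) - i) := Nat.pow_le_pow_right hd (by omega)
    · left
      exact ⟨rfl, hJJ, hwaste⟩

/-- the state does not notice a unit whose tail is in `J1` or which has no head -/
private lemma skip {N q D d : ℕ} (T : Tw N q D d) (J1 : Finset (Fin q)) (τ : Fin (D * q))
    (hcase : (T.to J1).tail τ ∈ J1 ∨ (T.to J1).head τ ∈ J1 ∨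
      (T.to J1).tail τ = (T.to J1).head τ)
    {s' : MvPolynomial (Fin (N + 1)) ℂ} {X : Finset (Fin (D * q))} {f : ℂ → Fin (N + 1) → ℂ}
    (hf : Sta2 T f J1 τ X s') : Sta2 T f J1 (τ + 1) X s' := by
  refine ⟨hf.bcurve, hf.mem_iff, ?_, ?_⟩
  · exact hf.con.mono (Finset.Subset.refl _)
      (fun i _ => W_anti (T.to ∅) (Nat.le_succ _) i)
  · intro p i j hij hi hj hlt hX
    rcases Nat.lt_succ_iff_lt_or_eq.mp hlt with hk' | hk'
    · exact hf.rel p i j hij hi hj hk' hX
    · have hkτ : idx p j = τ := Fin.ext hk'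
      obtain ⟨h1, h2, -⟩ := hp_spec T hij hi
      rw [← hkτ, to_tail_idx, to_head_idx] at hcase
      rcases hcase with h | h | h
      · exact absurd h hj
      · exact absurd h h2
      · exact absurd ((T.ord p).injective h) (ne_of_gt h1)

/-- the unit sphere is compact -/
lemma sphere_limit {R : ℕ} {U : Ultrafilter ℕ} {lam : ℕ → Fin R → ℂ}
    (h : ∀ᶠ k in (U : Filter ℕ), ‖lam k‖ = 1) :
    ∃ l : Fin R → ℂ, ‖l‖ = 1 ∧ Tendsto lam (U : Filter ℕ) (𝓝 l) := by
  have hle : ((U.map lam : Ultrafilter (Fin R → ℂ)) : Filter (Fin R → ℂ)) ≤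
      𝓟 (sphere (0 : Fin R → ℂ) 1) := by
    rw [Filter.le_principal_iff]
    show lam ⁻¹' sphere 0 1 ∈ (U : Filter ℕ)
    filter_upwards [h] with k hk
    simpa using hk
  obtain ⟨l, hl, hl2⟩ := (isCompact_sphere (0 : Fin R → ℂ) 1).ultrafilter_le_nhds (U.map lam) hle
  exact ⟨l, by simpa using hl, hl2⟩

theorem inner_stepL {N q D d R : ℕ} (T : Tw N q D d) (P : Finset (Finset (Fin q)))
    (J1 : Finset (Fin q)) (hP1 : ∀ J : Finset (Fin q), J.card < J1.card → J ∈ P)
    (hP2 : ∀ J ∈ P, J.card ≤ J1.card) (τ : Fin (D * q)) (h : ICL T R P J1 (τ + 1)) :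
    ICL T R P J1 τ := by
  classical
  intro A
  by_cases hcase : (T.to J1).tail τ ∈ J1 ∨ (T.to J1).head τ ∈ J1 ∨
      (T.to J1).tail τ = (T.to J1).head τ
  · obtain ⟨S', hS'd, hS'⟩ := h A
    refine ⟨S', hS'd, fun lam hlam => ⟨(hS' lam hlam).1, ?_⟩⟩
    intro τ0 h1 h2 X hX f hf
    rcases Nat.lt_or_ge (τ : ℕ) τ0 with hlt | hge
    · exact (hS' lam hlam).2 τ0 hlt h2 X hX f hf
    · have heq : τ0 = τ := le_antisymm hge h1
      subst heq
      exact (hS' lam hlam).2 _ le_rfl τ.isLt X hX f (skip T J1 τ hcase hf)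
  · push Not at hcase
    obtain ⟨ht, hh, hth⟩ := hcase
    obtain ⟨x, hx⟩ := Infinite.exists_notMem_finset A
    obtain ⟨S', hS'd, hS'⟩ := h (insert x A)
    by_contra hcon
    have hδ0 : ∀ k : ℕ, ((1 : ℂ) / ((k : ℂ) + 1)) ≠ 0 := by
      intro k
      exact one_div_ne_zero (Nat.cast_add_one_ne_zero k)
    have hδ : Tendsto (fun k : ℕ => (1 : ℂ) / ((k : ℂ) + 1)) atTop (𝓝 0) :=
      tendsto_one_div_add_atTop_nhds_zero_nat
    set U : Ultrafilter ℕ := Filter.hyperfilter ℕ with hU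
    have hUat : (U : Filter ℕ) ≤ atTop := by
      rw [hU, ← Nat.cofinite_eq_atTop]
      exact Filter.hyperfilter_le_cofinite
    have hδU : Tendsto (fun k : ℕ => (1 : ℂ) / ((k : ℂ) + 1)) (U : Filter ℕ) (𝓝 0) :=
      hδ.mono_left hUat
    have hPd : (prodP T.H ((T.to J1).b J1 τ)).IsHomogeneous d := by
      have := prodP_hom T.H ((T.to J1).b J1 τ)
      rwa [b_sum (T.to J1) J1 τ hh] at this
    set Sk : ℕ → Fin R → MvPolynomial (Fin (N + 1)) ℂ := fun k r =>
      MvPolynomial.C (x ^ (r : ℕ)) * prodP T.H ((T.to J1).b J1 τ) +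
        MvPolynomial.C ((1 : ℂ) / ((k : ℂ) + 1)) * S' r with hSk
    have hSkf : ∀ k lam, fam (Sk k) lam = MvPolynomial.C (ev x lam) *
        prodP T.H ((T.to J1).b J1 τ) +
        MvPolynomial.C ((1 : ℂ) / ((k : ℂ) + 1)) * fam S' lam := fun k lam => by
      rw [hSk]
      exact fam_level _ _ _ _ _
    have hhom : ∀ k r, (Sk k r).IsHomogeneous d := by
      intro k r
      apply MvPolynomial.IsHomogeneous.add
      · have := (MvPolynomial.isHomogeneous_C (Fin (N + 1)) (x ^ (r : ℕ))).mul hPd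
        rwa [zero_add] at this
      · have := (MvPolynomial.isHomogeneous_C (Fin (N + 1)) ((1 : ℂ) / ((k : ℂ) + 1))).mul
          (hS'd r)
        rwa [zero_add] at this
    -- the failure of each family
    have hfail : ∀ k : ℕ, ∃ y : Finset (Fin q) × Fin (D * q + 1) × Finset (Fin (D * q)),
        ∃ lam : Fin R → ℂ, ‖lam‖ = 1 ∧
        ((y.1 ∉ P ∧ y.1 ≠ J1) ∨ (y.1 = J1 ∧ (τ : ℕ) ≤ (y.2.1 : ℕ))) ∧
        y.2.2.card + 1 ≤ y.1.card + lost A lam ∧
        ∃ f, Sta2 T f y.1 (y.2.1 : ℕ) y.2.2 (fam (Sk k) lam) := by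
      intro k
      by_contra hno
      push Not at hno
      apply hcon
      refine ⟨Sk k, hhom k, fun lam hlam => ⟨?_, ?_⟩⟩
      · intro J hJ hJ1 τ0 hτ0 X hX f hf
        exact hno (J, ⟨τ0, Nat.lt_succ_of_le hτ0⟩, X) lam hlam (Or.inl ⟨hJ, hJ1⟩) hX f hf
      · intro τ0 h1 h2 X hX f hf
        exact hno (J1, ⟨τ0, Nat.lt_succ_of_le h2⟩, X) lam hlam (Or.inr ⟨rfl, h1⟩) hX f hf
    obtain ⟨y, hy⟩ := pick (U := U) (Filter.Eventually.of_forall hfail)
    obtain ⟨J, τ0, X⟩ := y
    simp only at hy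
    choose! lam hlam using fun (k : ℕ) (hk : ∃ lam : Fin R → ℂ, ‖lam‖ = 1 ∧
        ((J ∉ P ∧ J ≠ J1) ∨ (J = J1 ∧ (τ : ℕ) ≤ (τ0 : ℕ))) ∧
        X.card + 1 ≤ J.card + lost A lam ∧
        ∃ f, Sta2 T f J (τ0 : ℕ) X (fam (Sk k) lam)) => hk
    have hy' := hy.mono fun k hk => hlam k hk
    obtain ⟨l, hl1, hlt⟩ := sphere_limit (U := U) (lam := lam) (hy'.mono fun k hk => hk.1)
    have hXJ : X.card + 1 ≤ J.card + lost A l := by
      obtain ⟨k, hk1, hk2⟩ := (hy'.and (lost_limit A hlt)).exists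
      have := hk1.2.2.1
      omega
    have hτ0M : (τ0 : ℕ) ≤ D * q := Nat.lt_succ_iff.mp τ0.isLt
    have hcase2 : (J ∉ P ∧ J ≠ J1) ∨ (J = J1 ∧ (τ : ℕ) ≤ (τ0 : ℕ)) := by
      obtain ⟨k, hk⟩ := hy'.exists
      exact hk.2.1
    have hmono : ∀ v : Fin R → ℂ, lost A v ≤ lost (insert x A) v := fun v =>
      lost_mono (Finset.subset_insert x A) v
    rcases hcase2 with ⟨hJP, hJJ1⟩ | ⟨hJJ1, hττ0⟩
    · -- the level is invisible
      obtain ⟨k, hk⟩ := hy'.exists
      obtain ⟨hk1, -, hk2, f, hf⟩ := hk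
      have hns : ¬ J ⊆ J1 := by
        intro hsub
        exact hJP (hP1 J (Finset.card_lt_card (lt_of_le_of_ne hsub hJJ1)))
      obtain ⟨i, hiJ, hiJ1⟩ := Finset.not_subset.mp hns
      have h3 := hmono (lam k)
      refine (hS' (lam k) hk1).1 J hJP hJJ1 τ0 hτ0M X (by omega) f
        ⟨hf.bcurve, hf.mem_iff, ?_, hf.rel⟩
      have h4 := hf.con
      rw [hSkf] at h4
      exact con_of_van_c (hδ0 k) (b_pos (T.to J1) J1 τ hiJ1) ((hf.mem_iff i).mp hiJ) h4
    · subst hJJ1
      choose! F hF using fun (k : ℕ) (hk : ∃ f, Sta2 T f J (τ0 : ℕ) X (fam (Sk k) (lam k))) => hk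
      obtain ⟨g, J', hsub, halt⟩ := transitionL T J τ ht hh hth S' x X τ0 hττ0 U lam l hlt _ hδU
        hδ0 F (hy'.mono (fun k hk => by
          have := hF k hk.2.2.2
          rwa [hSkf] at this))
      have hlarge : J' ≠ J → J.card < J'.card ∧ J' ∉ P := by
        intro hne
        have hlt := Finset.card_lt_card (lt_of_le_of_ne hsub (Ne.symm hne))
        exact ⟨hlt, fun hP => absurd (hP2 J' hP) (not_le.mpr hlt)⟩
      have h5 := hmono l
      rcases halt with ⟨hlt', hst⟩ | ⟨heq, hne, hst⟩ | ⟨heq, hx0, hst⟩ | ⟨heq, -, hst⟩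
      · by_cases hJJ : J' = J
        · subst hJJ
          exact (hS' l hl1).2 τ0 hlt' hτ0M X (by omega) g hst
        · have h6 := (hlarge hJJ).1
          exact (hS' l hl1).1 J' (hlarge hJJ).2 hJJ τ0 hτ0M X (by omega) g hst
      · refine (hS' l hl1).1 J' (hlarge hne).2 hne (τ + 1) τ.isLt (insert τ X) ?_ g hst
        have h1 := Finset.card_insert_le τ X
        have h2 := (hlarge hne).1
        omega
      · refine (hS' l hl1).2 (τ + 1) le_rfl τ.isLt (insert τ X) ?_ g hst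
        have h1 := Finset.card_insert_le τ X
        have h2 := lost_insert A hx l hx0
        omega
      · exact (hS' l hl1).2 (τ + 1) le_rfl τ.isLt X (by omega) g hst

end Pool.Agent.H13.LS
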